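import Pool.Agent.W425.ND.Stm2
import Pool.Agent.W372.SG.G1

set_option autoImplicit false

/-! Project ND, part SPEC: the functional equation for all `brk f p m` (helper402). -/

namespace Pool.Agent.W402.ND

open MvPolynomial Pool.Agent.W425.ND Pool.Agent.W372.SG
open Pool.Agent.H628R4.TP (weylS)

variable {N : ℕ}

/-! ### Multiplication operators and commutation -/

/-- multiplication by a polynomial -/
noncomputable def ml (a : MvPolynomial (Fin N) ℂ) : Module.End ℂ (MvPolynomial (Fin N) ℂ) :=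
  LinearMap.mulLeft ℂ a

lemma ml_apply (a g : MvPolynomial (Fin N) ℂ) : ml a g = a * g := rfl

lemma ml_C (c : ℂ) : ml (C c : MvPolynomial (Fin N) ℂ) = algebraMap ℂ _ c := by
  refine LinearMap.ext fun g => ?_
  rw [ml_apply, Module.algebraMap_end_apply, C_mul']

lemma ml_add (a b : MvPolynomial (Fin N) ℂ) : ml (a + b) = ml a + ml b := by
  refine LinearMap.ext fun g => ?_
  rw [LinearMap.add_apply, ml_apply, ml_apply, ml_apply, add_mul]

lemma ml_mul (a b : MvPolynomial (Fin N) ℂ) : ml (a * b) = ml a * ml b := by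
  refine LinearMap.ext fun g => ?_
  rw [Module.End.mul_apply, ml_apply, ml_apply, ml_apply, mul_assoc]

lemma ml_mem (a : MvPolynomial (Fin N) ℂ) : ml a ∈ weylS (Fin N) := by
  induction a using MvPolynomial.induction_on with
  | C c => rw [ml_C]; exact Subalgebra.algebraMap_mem _ c
  | add p q hp hq => rw [ml_add]; exact add_mem hp hq
  | mul_X p i hp =>
    rw [ml_mul]
    exact mul_mem hp (Algebra.subset_adjoin (Or.inl ⟨i, rfl⟩))

/-- the partial derivative as an operator -/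
noncomputable def pd (i : Fin N) : Module.End ℂ (MvPolynomial (Fin N) ℂ) :=
  ((pderiv i : Derivation ℂ (MvPolynomial (Fin N) ℂ)
        (MvPolynomial (Fin N) ℂ)) : MvPolynomial (Fin N) ℂ →ₗ[ℂ] MvPolynomial (Fin N) ℂ)

lemma pd_apply (i : Fin N) (g : MvPolynomial (Fin N) ℂ) : pd i g = pderiv i g := rfl

lemma pd_mem (i : Fin N) : pd i ∈ weylS (Fin N) :=
  Algebra.subset_adjoin (Or.inr ⟨i, rfl⟩)

/-- `a ^ (l + e)` can be moved to the right of `Q`. -/
def Mov (a : MvPolynomial (Fin N) ℂ) (l : ℕ) (Q : Module.End ℂ (MvPolynomial (Fin N) ℂ)) : Prop :=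
  ∀ e : ℕ, ∃ Q' ∈ weylS (Fin N), ml (a ^ (l + e)) * Q = Q' * ml (a ^ e)

lemma Mov.mono {a : MvPolynomial (Fin N) ℂ} {l : ℕ} {Q : Module.End ℂ (MvPolynomial (Fin N) ℂ)}
    (h : Mov a l Q) (k : ℕ) : Mov a (l + k) Q := by
  intro e
  obtain ⟨Q', hQ', h1⟩ := h (k + e)
  refine ⟨Q' * ml (a ^ k), mul_mem hQ' (ml_mem _), ?_⟩
  rw [add_assoc, h1, pow_add, ml_mul, mul_assoc]

lemma exists_mov (a : MvPolynomial (Fin N) ℂ) {Q : Module.End ℂ (MvPolynomial (Fin N) ℂ)}
    (hQ : Q ∈ weylS (Fin N)) : ∃ l, Mov a l Q := by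
  unfold weylS at hQ
  induction hQ using Algebra.adjoin_induction with
  | mem x hx =>
    rcases hx with ⟨i, rfl⟩ | ⟨i, rfl⟩
    · refine ⟨0, fun e => ⟨ml (X i), ml_mem _, ?_⟩⟩
      show ml (a ^ (0 + e)) * ml (X i) = _
      rw [← ml_mul, ← ml_mul, zero_add, mul_comm]
    · refine ⟨1, fun e => ⟨ml a * pd i - (e : ℂ) • ml (pderiv i a), ?_, ?_⟩⟩
      · exact sub_mem (mul_mem (ml_mem _) (pd_mem i)) (Subalgebra.smul_mem _ (ml_mem _) _)
      · refine LinearMap.ext fun g => ?_
        show a ^ (1 + e) * pderiv i g = a * pderiv i (a ^ e * g) -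
          (e : ℂ) • (pderiv i a * (a ^ e * g))
        rw [Derivation.leibniz, Derivation.leibniz_pow, smul_eq_mul, smul_eq_mul, smul_eq_mul,
          MvPolynomial.smul_eq_C_mul]
        rcases Nat.eq_zero_or_pos e with rfl | he
        · simp
        · obtain ⟨k, rfl⟩ := Nat.exists_eq_add_of_le' he
          simp only [nsmul_eq_mul, Nat.add_sub_cancel, map_natCast]
          ring
  | algebraMap c =>
    refine ⟨0, fun e => ⟨algebraMap ℂ _ c, Subalgebra.algebraMap_mem _ c, ?_⟩⟩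
    rw [zero_add, ← Algebra.commutes]
  | add x y _ _ hx hy =>
    obtain ⟨l1, h1⟩ := hx
    obtain ⟨l2, h2⟩ := hy
    refine ⟨l1 + l2, fun e => ?_⟩
    obtain ⟨A, hA, hA'⟩ := h1.mono l2 e
    obtain ⟨B, hB, hB'⟩ := h2.mono l1 e
    refine ⟨A + B, add_mem hA hB, ?_⟩
    rw [mul_add, hA', add_mul, add_comm l1 l2, hB']
  | mul x y _ _ hx hy =>
    obtain ⟨l1, h1⟩ := hx
    obtain ⟨l2, h2⟩ := hy
    refine ⟨l1 + l2, fun e => ?_⟩
    obtain ⟨A, hA, hA'⟩ := h1 (l2 + e)
    obtain ⟨B, hB, hB'⟩ := h2 e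
    refine ⟨A * B, mul_mem hA hB, ?_⟩
    rw [add_assoc, ← mul_assoc, hA', mul_assoc, hB', mul_assoc]

/-! ### Operators depending polynomially on `s` -/

/-- operators depending polynomially on `s` -/
noncomputable def PM (N : ℕ) : Submodule ℂ (ℕ → Module.End ℂ (MvPolynomial (Fin N) ℂ)) :=
  Submodule.span ℂ {F | ∃ (j : ℕ) (Q : Module.End ℂ (MvPolynomial (Fin N) ℂ)), Q ∈ weylS (Fin N) ∧
    F = fun s : ℕ => ((s : ℂ) ^ j) • Q}

lemma gen_mem (j : ℕ) {Q : Module.End ℂ (MvPolynomial (Fin N) ℂ)} (hQ : Q ∈ weylS (Fin N)) :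
    (fun s : ℕ => ((s : ℂ) ^ j) • Q) ∈ PM N :=
  Submodule.subset_span ⟨j, Q, hQ, rfl⟩

lemma const_mem {Q : Module.End ℂ (MvPolynomial (Fin N) ℂ)} (hQ : Q ∈ weylS (Fin N)) :
    (fun _ : ℕ => Q) ∈ PM N := by
  have h := gen_mem 0 hQ
  simpa using h

lemma pm_mul {F G : ℕ → Module.End ℂ (MvPolynomial (Fin N) ℂ)} (hF : F ∈ PM N) (hG : G ∈ PM N) :
    (fun s => F s * G s) ∈ PM N := by
  unfold PM at hF
  induction hF using Submodule.span_induction with
  | mem x hx =>
    obtain ⟨j, Q, hQ, rfl⟩ := hx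
    unfold PM at hG
    induction hG using Submodule.span_induction with
    | mem y hy =>
      obtain ⟨k, R, hR, rfl⟩ := hy
      have h := gen_mem (j + k) (mul_mem hQ hR)
      have h2 : (fun s : ℕ => (((s : ℂ) ^ j) • Q) * (((s : ℂ) ^ k) • R)) =
          fun s : ℕ => ((s : ℂ) ^ (j + k)) • (Q * R) := by
        funext s
        rw [smul_mul_smul_comm, pow_add]
      rw [h2]
      exact h
    | zero =>
      have h2 : (fun s : ℕ => (((s : ℂ) ^ j) • Q) *
          (0 : ℕ → Module.End ℂ (MvPolynomial (Fin N) ℂ)) s) = 0 := by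
        funext s
        exact mul_zero _
      rw [h2]
      exact Submodule.zero_mem _
    | add y z _ _ hy hz =>
      have h2 : (fun s : ℕ => (((s : ℂ) ^ j) • Q) * (y + z) s) =
          (fun s : ℕ => (((s : ℂ) ^ j) • Q) * y s) + fun s : ℕ => (((s : ℂ) ^ j) • Q) * z s := by
        funext s
        exact mul_add _ _ _
      rw [h2]
      exact Submodule.add_mem _ hy hz
    | smul a y _ hy =>
      have h2 : (fun s : ℕ => (((s : ℂ) ^ j) • Q) * (a • y) s) =
          a • fun s : ℕ => (((s : ℂ) ^ j) • Q) * y s := by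
        funext s
        show (((s : ℂ) ^ j) • Q) * (a • y s) = a • ((((s : ℂ) ^ j) • Q) * y s)
        exact Algebra.mul_smul_comm a _ _
      rw [h2]
      exact Submodule.smul_mem _ _ hy
  | zero =>
    have h2 : (fun s : ℕ => (0 : ℕ → Module.End ℂ (MvPolynomial (Fin N) ℂ)) s * G s) = 0 := by
      funext s
      exact zero_mul _
    rw [h2]
    exact Submodule.zero_mem _
  | add y z _ _ hy hz =>
    have h2 : (fun s : ℕ => (y + z) s * G s) = (fun s : ℕ => y s * G s) + fun s : ℕ => z s * G s := by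
      funext s
      exact add_mul _ _ _
    rw [h2]
    exact Submodule.add_mem _ hy hz
  | smul a y _ hy =>
    have h2 : (fun s : ℕ => (a • y) s * G s) = a • fun s : ℕ => y s * G s := by
      funext s
      show (a • y s) * G s = a • (y s * G s)
      exact Algebra.smul_mul_assoc a _ _
    rw [h2]
    exact Submodule.smul_mem _ _ hy

/-- polynomials in `s` -/
lemma pol_mem (q : Polynomial ℂ) :
    (fun s : ℕ => (q.eval (s : ℂ)) • (1 : Module.End ℂ (MvPolynomial (Fin N) ℂ))) ∈ PM N := by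
  have h2 : (fun s : ℕ => (q.eval (s : ℂ)) • (1 : Module.End ℂ (MvPolynomial (Fin N) ℂ))) =
      ∑ j ∈ q.support, q.coeff j • fun s : ℕ =>
        ((s : ℂ) ^ j) • (1 : Module.End ℂ (MvPolynomial (Fin N) ℂ)) := by
    funext s
    rw [Finset.sum_apply, Polynomial.eval_eq_sum, Polynomial.sum, Finset.sum_smul]
    refine Finset.sum_congr rfl fun j _ => ?_
    rw [Pi.smul_apply, smul_smul]
  rw [h2]
  exact Submodule.sum_mem _ fun j _ => Submodule.smul_mem _ _ (gen_mem j (one_mem _))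

/-- multiplication by a polynomial in `s` -/
lemma pol_smul_mem (q : Polynomial ℂ) {F : ℕ → Module.End ℂ (MvPolynomial (Fin N) ℂ)}
    (hF : F ∈ PM N) : (fun s : ℕ => (q.eval (s : ℂ)) • F s) ∈ PM N := by
  have h := pm_mul (pol_mem q) hF
  have h2 : (fun s : ℕ => (q.eval (s : ℂ)) • F s) = fun s : ℕ =>
      (q.eval (s : ℂ)) • (1 : Module.End ℂ (MvPolynomial (Fin N) ℂ)) * F s := by
    funext s
    rw [Algebra.smul_mul_assoc, one_mul]
  rw [h2]
  exact h

/-- translation -/
lemma shift_mem (c : ℕ) {F : ℕ → Module.End ℂ (MvPolynomial (Fin N) ℂ)} (hF : F ∈ PM N) :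
    ∃ G ∈ PM N, ∀ s, c ≤ s → G s = F (s - c) := by
  unfold PM at hF
  induction hF using Submodule.span_induction with
  | mem x hx =>
    obtain ⟨j, Q, hQ, rfl⟩ := hx
    refine ⟨_, pol_smul_mem ((Polynomial.X - Polynomial.C (c : ℂ)) ^ j) (const_mem hQ),
      fun s hs => ?_⟩
    simp only [Polynomial.eval_pow, Polynomial.eval_sub, Polynomial.eval_X, Polynomial.eval_C]
    rw [Nat.cast_sub hs]
  | zero => exact ⟨0, Submodule.zero_mem _, fun s _ => rfl⟩
  | add y z _ _ hy hz =>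
    obtain ⟨A, hA, hA'⟩ := hy
    obtain ⟨B, hB, hB'⟩ := hz
    refine ⟨A + B, Submodule.add_mem _ hA hB, fun s hs => ?_⟩
    rw [Pi.add_apply, hA' s hs, hB' s hs, Pi.add_apply]
  | smul a y _ hy =>
    obtain ⟨A, hA, hA'⟩ := hy
    refine ⟨a • A, Submodule.smul_mem _ _ hA, fun s hs => ?_⟩
    rw [Pi.smul_apply, hA' s hs, Pi.smul_apply]

/-- commutation with powers of `a` -/
lemma pm_mov (a : MvPolynomial (Fin N) ℂ) {F : ℕ → Module.End ℂ (MvPolynomial (Fin N) ℂ)}
    (hF : F ∈ PM N) : ∃ l : ℕ, ∀ e : ℕ, ∃ G ∈ PM N, ∀ s, ml (a ^ (l + e)) * F s =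
      G s * ml (a ^ e) := by
  unfold PM at hF
  induction hF using Submodule.span_induction with
  | mem x hx =>
    obtain ⟨j, Q, hQ, rfl⟩ := hx
    obtain ⟨l, hl⟩ := exists_mov a hQ
    refine ⟨l, fun e => ?_⟩
    obtain ⟨Q', hQ', h⟩ := hl e
    refine ⟨_, gen_mem j hQ', fun s => ?_⟩
    simp only
    rw [mul_smul_comm, h, smul_mul_assoc]
  | zero => exact ⟨0, fun e => ⟨0, Submodule.zero_mem _, fun s => by
      rw [Pi.zero_apply, mul_zero, zero_mul]⟩⟩
  | add y z _ _ hy hz =>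
    obtain ⟨l1, h1⟩ := hy
    obtain ⟨l2, h2⟩ := hz
    refine ⟨l1 + l2, fun e => ?_⟩
    obtain ⟨A, hA, hA'⟩ := h1 (l2 + e)
    obtain ⟨B, hB, hB'⟩ := h2 (l1 + e)
    refine ⟨(fun s => A s * ml (a ^ l2)) + fun s => B s * ml (a ^ l1),
      Submodule.add_mem _ (pm_mul hA (const_mem (ml_mem _))) (pm_mul hB (const_mem (ml_mem _))),
      fun s => ?_⟩
    rw [Pi.add_apply, Pi.add_apply, mul_add]
    have e1 : ml (a ^ (l1 + l2 + e)) * y s = A s * ml (a ^ l2) * ml (a ^ e) := by
      rw [add_assoc, hA', pow_add, ml_mul, mul_assoc]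
    have e2 : ml (a ^ (l1 + l2 + e)) * z s = B s * ml (a ^ l1) * ml (a ^ e) := by
      rw [add_comm l1 l2, add_assoc, hB', pow_add, ml_mul, mul_assoc]
    rw [e1, e2, add_mul]
  | smul c y _ hy =>
    obtain ⟨l, hl⟩ := hy
    refine ⟨l, fun e => ?_⟩
    obtain ⟨A, hA, hA'⟩ := hl e
    refine ⟨c • A, Submodule.smul_mem _ _ hA, fun s => ?_⟩
    rw [Pi.smul_apply, Pi.smul_apply, mul_smul_comm, hA', smul_mul_assoc]

/-! ### The iterated functional equation -/

/-- `b(s) b(s-1) ... b(s-m)` for a natural number `s` -/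
lemma iter (f a : MvPolynomial (Fin N) ℂ) (b : Polynomial ℂ)
    (F0 : ℕ → Module.End ℂ (MvPolynomial (Fin N) ℂ)) (hF0 : F0 ∈ PM N)
    (h0 : ∀ s : ℕ, C (b.eval (s : ℂ)) * a * f ^ s = F0 s (f ^ (s + 1))) (m : ℕ) :
    ∃ (E : ℕ) (F : ℕ → Module.End ℂ (MvPolynomial (Fin N) ℂ)), F ∈ PM N ∧ ∀ s, m ≤ s →
      a ^ E * (C ((prodb b m).eval (s : ℂ)) * f ^ (s - m)) = F s (f ^ (s + 1)) := by
  induction m with
  | zero =>
    refine ⟨1, F0, hF0, fun s _ => ?_⟩
    rw [← h0 s]
    have h1 : (prodb b 0).eval (s : ℂ) = b.eval (s : ℂ) := by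
      unfold prodb
      simp
    rw [h1, Nat.sub_zero, pow_one]
    ring
  | succ m ih =>
    obtain ⟨E, F, hF, hFs⟩ := ih
    obtain ⟨G, hG, hGs⟩ := shift_mem (m + 1) hF0
    obtain ⟨l, hl⟩ := pm_mov a hG
    obtain ⟨H, hH, hHs⟩ := hl E
    refine ⟨l + E + 1, fun s => H s * F s, pm_mul hH hF, fun s hs => ?_⟩
    have h1 : (prodb b (m + 1)).eval (s : ℂ) =
        (prodb b m).eval (s : ℂ) * b.eval (((s - (m + 1) : ℕ)) : ℂ) := by
      unfold prodb
      rw [Finset.prod_range_succ, Polynomial.eval_mul, Polynomial.eval_comp]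
      simp only [Polynomial.eval_sub, Polynomial.eval_X, Polynomial.eval_C]
      rw [Nat.cast_sub hs]
    have h2 := h0 (s - (m + 1))
    have h3 : s - (m + 1) + 1 = s - m := by omega
    rw [h3, ← hGs s hs] at h2
    have h4 := LinearMap.congr_fun (hHs s) (C ((prodb b m).eval (s : ℂ)) * f ^ (s - m))
    rw [Module.End.mul_apply, Module.End.mul_apply, ml_apply, ml_apply, hFs s (by omega)] at h4
    have h5 : G s (C ((prodb b m).eval (s : ℂ)) * f ^ (s - m)) =
        C ((prodb b m).eval (s : ℂ)) * G s (f ^ (s - m)) := by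
      rw [C_mul', map_smul, C_mul']
    rw [Module.End.mul_apply, ← h4, h5, ← h2, h1, map_mul, pow_succ]
    ring

/-- The functional equation for `f ^ (s - m)` for all `s`. -/
lemma iter_all (f a p : MvPolynomial (Fin N) ℂ) (b : Polynomial ℂ)
    (F0 : ℕ → Module.End ℂ (MvPolynomial (Fin N) ℂ)) (hF0 : F0 ∈ PM N)
    (h0 : ∀ s : ℕ, C (b.eval (s : ℂ)) * a * f ^ s = F0 s (f ^ (s + 1))) (K m : ℕ) (hm : m ≤ K) :
    ∃ (E : ℕ) (F : ℕ → Module.End ℂ (MvPolynomial (Fin N) ℂ)), F ∈ PM N ∧ ∀ s : ℕ,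
      a ^ E * (C ((prodb b K).eval (s : ℂ)) *
        (p * ((s.descFactorial m : ℕ) : MvPolynomial (Fin N) ℂ) * f ^ (s - m))) =
        F s (f ^ (s + 1)) := by
  obtain ⟨E, F, hF, hFs⟩ := iter f a b F0 hF0 h0 m
  obtain ⟨k, rfl⟩ := Nat.exists_eq_add_of_le hm
  have h1 : prodb b (m + k) = prodb b m *
      ∏ i ∈ Finset.range k, b.comp (Polynomial.X - Polynomial.C (((m + 1 + i : ℕ)) : ℂ)) := by
    unfold prodb
    rw [show m + k + 1 = m + 1 + k by ring, Finset.prod_range_add]
  set q : Polynomial ℂ := (∏ i ∈ Finset.range k,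
    b.comp (Polynomial.X - Polynomial.C (((m + 1 + i : ℕ)) : ℂ))) * descPochhammer ℂ m with hq
  refine ⟨E, fun s => (q.eval (s : ℂ)) • (ml p * F s),
    pol_smul_mem q (pm_mul (const_mem (ml_mem p)) hF), fun s => ?_⟩
  have h2 : (descPochhammer ℂ m).eval (s : ℂ) = ((s.descFactorial m : ℕ) : ℂ) :=
    descPochhammer_eval_eq_descFactorial ℂ s m
  rw [LinearMap.smul_apply, Module.End.mul_apply, ml_apply, hq, Polynomial.eval_mul, h2, h1,
    Polynomial.eval_mul, ← C_mul', map_mul, map_mul, map_natCast]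
  by_cases hs : m ≤ s
  · rw [← hFs s hs]
    ring
  · have h3 : s.descFactorial m = 0 := Nat.descFactorial_eq_zero_iff_lt.2 (by omega)
    rw [h3]
    simp

/-! ### Normal form -/

/-- a finite sum over a `Finset` as a sum over `Fin n` -/
lemma fin_sum {ι M : Type} [AddCommMonoid M] (S : Finset ι) :
    ∃ (n : ℕ) (x : Fin n → ι), (∀ k, x k ∈ S) ∧ ∀ g : ι → M, ∑ i ∈ S, g i = ∑ k, g (x k) := by
  refine ⟨S.card, fun k => (S.equivFin.symm k : ι), fun k => (S.equivFin.symm k).2, fun g => ?_⟩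
  rw [← Finset.sum_coe_sort S g]
  exact (Equiv.sum_comp S.equivFin.symm (fun i : S => g i)).symm

/-- elements of the closure of a range as sums over `Fin n` -/
lemma closure_sum {ι M : Type} [AddCommMonoid M] (g : ι → M) (x : M)
    (hx : x ∈ AddSubmonoid.closure (Set.range g)) :
    ∃ (n : ℕ) (y : Fin n → ι), x = ∑ k, g (y k) := by
  induction hx using AddSubmonoid.closure_induction with
  | mem x hx =>
    obtain ⟨i, rfl⟩ := hx
    exact ⟨1, fun _ => i, by simp⟩
  | zero => exact ⟨0, Fin.elim0, by simp⟩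
  | add x y _ _ hx hy =>
    obtain ⟨n, u, rfl⟩ := hx
    obtain ⟨k, w, rfl⟩ := hy
    refine ⟨n + k, Fin.append u w, ?_⟩
    rw [Fin.sum_univ_add]
    simp

/-- the terms of the normal form -/
noncomputable def gt (u : Fn N ℂ) (x : (Fin N → ℤ) × MvPolynomial (Option (Fin N)) ℂ) : Fn N ℂ :=
  low x.1 (x.2 • u)

lemma gt_apply (u : Fn N ℂ) (x : (Fin N → ℤ) × MvPolynomial (Option (Fin N)) ℂ) (s : ℕ)
    (e : Fin N →₀ ℕ) : gt u x s e = if ∀ i, 0 ≤ (e i : ℤ) + x.1 i then
      ((∏ i, ((e i : ℤ) + x.1 i).toNat.descFactorial (x.1 i).toNat : ℕ) : ℂ) *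
        (eval (ev s (tr x.1 e)) x.2 * u s (tr x.1 e)) else 0 := rfl

/-- the coefficients of a sequence of polynomials -/
noncomputable def cf (U : ℕ → MvPolynomial (Fin N) ℂ) : Fn N ℂ := fun s e => coeff e (U s)

lemma cf_apply (U : ℕ → MvPolynomial (Fin N) ℂ) (s : ℕ) (e : Fin N →₀ ℕ) :
    cf U s e = coeff e (U s) := rfl

lemma sum_fn {ι : Type} (S : Finset ι) (u : ι → Fn N ℂ) (s : ℕ) (e : Fin N →₀ ℕ) :
    (∑ i ∈ S, u i) s e = ∑ i ∈ S, u i s e := by
  classical
  induction S using Finset.induction_on with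
  | empty => rfl
  | insert a S ha ih =>
    rw [Finset.sum_insert ha, Finset.sum_insert ha, W425.ND.add_apply, ih]

/-- the normal form -/
lemma normal (g : ℕ → MvPolynomial (Fin N) ℂ) {F : ℕ → Module.End ℂ (MvPolynomial (Fin N) ℂ)}
    (hF : F ∈ PM N) :
    cf (fun s => F s (g s)) ∈ AddSubmonoid.closure (Set.range (gt (cf g))) := by
  unfold PM at hF
  induction hF using Submodule.span_induction with
  | mem x hx =>
    obtain ⟨j, Q, hQ, rfl⟩ := hx
    obtain ⟨q, hqf, hq⟩ := Pool.Agent.H628R4.TP.act_weyl Q hQ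
    have h1 : cf (fun s => (((s : ℂ) ^ j) • Q) (g s)) =
        ∑ δ ∈ hqf.toFinset, gt (cf g) (δ, X none ^ j * rename some (q δ)) := by
      funext s e
      have h2 := coeff_act Q q hq hqf.toFinset (fun u hu => (Set.Finite.mem_toFinset _).2 hu)
        (g s) e
      rw [cf_apply, LinearMap.smul_apply, coeff_smul, smul_eq_mul, h2, Finset.mul_sum, sum_fn]
      refine Finset.sum_congr rfl fun δ _ => ?_
      rw [gt_apply]
      simp only
      split_ifs with hpos
      · rw [map_mul, map_pow, eval_X, eval_rename]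
        have h5 : (ev s (tr δ e) : Option (Fin N) → ℂ) ∘ some =
            fun i => ((((e i : ℤ) + δ i : ℤ)) : ℂ) := by
          funext i
          show (((((e i : ℤ) + δ i).toNat : ℕ)) : ℂ) = _
          have h6 := hpos i
          have h7 : (((((e i : ℤ) + δ i).toNat : ℕ)) : ℤ) = (e i : ℤ) + δ i := Int.toNat_of_nonneg h6
          rw [← h7]
          push_cast
          rfl
        rw [h5]
        have h8 : (ev s (tr δ e) none : ℂ) = (s : ℂ) := rfl
        have h9 : ed e δ = tr δ e := rfl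
        rw [h8, h9, cf_apply]
        push_cast
        ring
      · rw [mul_zero]
    rw [h1]
    exact AddSubmonoid.sum_mem _ fun δ _ => AddSubmonoid.subset_closure ⟨_, rfl⟩
  | zero =>
    have h1 : cf (fun s => (0 : ℕ → Module.End ℂ (MvPolynomial (Fin N) ℂ)) s (g s)) = 0 := by
      funext s e
      show coeff e ((0 : Module.End ℂ (MvPolynomial (Fin N) ℂ)) (g s)) = 0
      rw [LinearMap.zero_apply, coeff_zero]
    rw [h1]
    exact AddSubmonoid.zero_mem _
  | add x y _ _ hx hy =>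
    have h1 : cf (fun s => (x + y) s (g s)) = cf (fun s => x s (g s)) + cf (fun s => y s (g s)) := by
      funext s e
      show coeff e ((x s + y s) (g s)) = coeff e (x s (g s)) + coeff e (y s (g s))
      rw [LinearMap.add_apply, coeff_add]
    rw [h1]
    exact AddSubmonoid.add_mem _ hx hy
  | smul c x _ hx =>
    obtain ⟨n, y, hy⟩ := closure_sum _ _ hx
    have h1 : cf (fun s => (c • x) s (g s)) = ∑ k, gt (cf g) ((y k).1, C c * (y k).2) := by
      funext s e
      have h2 : cf (fun s => (c • x) s (g s)) s e = c * cf (fun s => x s (g s)) s e := by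
        show coeff e ((c • x s) (g s)) = c * coeff e (x s (g s))
        rw [LinearMap.smul_apply, coeff_smul, smul_eq_mul]
      rw [h2, hy, sum_fn, sum_fn, Finset.mul_sum]
      refine Finset.sum_congr rfl fun k _ => ?_
      rw [gt_apply, gt_apply]
      simp only
      split_ifs
      · rw [map_mul, eval_C]; ring
      · rw [mul_zero]
    rw [h1]
    exact AddSubmonoid.sum_mem _ fun k _ => AddSubmonoid.subset_closure ⟨_, rfl⟩

/-- **SPEC** -/
theorem taskSPEC : TaskSPEC := by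
  classical
  intro N loc f b hU K m hm p
  obtain ⟨a, P, ha0, ha1, hfe⟩ := hU
  set F0 : ℕ → Module.End ℂ (MvPolynomial (Fin N) ℂ) := fun s =>
    P.sum fun m Q => ((s : ℂ) ^ m) • (Q : Module.End ℂ (MvPolynomial (Fin N) ℂ)) with hF0
  have hF0m : F0 ∈ PM N := by
    have h1 : F0 = ∑ m ∈ P.support, fun s : ℕ => ((s : ℂ) ^ m) •
        ((P m : weylS (Fin N)) : Module.End ℂ (MvPolynomial (Fin N) ℂ)) := by
      funext s
      rw [Finset.sum_apply, hF0]
      rfl
    rw [h1]
    exact Submodule.sum_mem _ fun j _ => gen_mem j (P j).2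
  have h0 : ∀ s : ℕ, C (b.eval (s : ℂ)) * a * f ^ s = F0 s (f ^ (s + 1)) := by
    intro s
    rw [hfe s, hF0]
    simp only [Finsupp.sum, LinearMap.coe_sum, Finset.sum_apply, LinearMap.smul_apply]
  obtain ⟨E, F, hF, hFs⟩ := iter_all f a p b F0 hF0m h0 K m hm
  obtain ⟨n, y, hy⟩ := closure_sum _ _ (normal (fun s => f ^ (s + 1)) hF)
  have hu : cf (fun s => f ^ (s + 1)) = sh 1 (brk f 1 0) := by
    funext s e
    show coeff e (f ^ (s + 1)) = coeff e ((1 : MvPolynomial (Fin N) ℂ) *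
      (((s + 1).descFactorial 0 : ℕ) : MvPolynomial (Fin N) ℂ) * f ^ (s + 1 - 0))
    simp
  rw [hu] at hy
  obtain ⟨n0, x, hx, hsum⟩ := fin_sum (M := ℂ) ((a ^ E).support.erase 0)
  refine ⟨n, n0, fun k => (y k).1, fun k => (y k).2, fun k i => -((x k i : ℕ) : ℤ),
    fun k => -coeff (x k) (a ^ E), fun k => ⟨?_, fun i => ?_, ?_⟩, ?_⟩
  · by_contra hloc
    have h1 := hx k
    rw [ha1 hloc, one_pow, Finset.mem_erase, mem_support_iff, coeff_one] at h1
    exact h1.2 (if_neg (Ne.symm h1.1))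
  · simp
  · intro h1
    have h2 := hx k
    rw [Finset.mem_erase] at h2
    apply h2.1
    ext i
    have h3 := congrFun h1 i
    simp only [Pi.zero_apply, neg_eq_zero, Nat.cast_eq_zero] at h3
    exact h3
  · have hyy : ∑ k, low (y k).1 ((y k).2 • sh 1 (brk f 1 0)) = cf (fun s => F s (f ^ (s + 1))) :=
      hy.symm
    rw [hyy]
    funext s e
    rw [W425.ND.add_apply, sum_fn, W425.ND.smul_apply, cf_apply, ← hFs s]
    have hB : ∀ e : Fin N →₀ ℕ, eval (ev s e : Option (Fin N) → ℂ) (Bop (prodb b K)) =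
        (prodb b K).eval (s : ℂ) := by
      intro e
      unfold Bop
      rw [Polynomial.aeval_def, Polynomial.hom_eval₂, eval_X]
      have h1 : (eval (ev s e : Option (Fin N) → ℂ)).comp
          (algebraMap ℂ (MvPolynomial (Option (Fin N)) ℂ)) = RingHom.id ℂ := by
        refine RingHom.ext fun c => ?_
        rw [RingHom.comp_apply, MvPolynomial.algebraMap_eq, eval_C]
        rfl
      rw [h1]
      rfl
    set G : MvPolynomial (Fin N) ℂ := C ((prodb b K).eval (s : ℂ)) *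
        (p * ((s.descFactorial m : ℕ) : MvPolynomial (Fin N) ℂ) * f ^ (s - m)) with hG
    have hl : eval (ev s e : Option (Fin N) → ℂ) (Bop (prodb b K)) * brk f p m s e =
        coeff e G := by
      rw [hB, hG, coeff_C_mul]
      rfl
    have hlow : ∀ c : Fin N →₀ ℕ, low (fun i => -((c i : ℕ) : ℤ))
        ((C (-coeff c (a ^ E)) * Bop (prodb b K) : MvPolynomial (Option (Fin N)) ℂ) •
          brk f p m) s e = -coeff e (monomial c (coeff c (a ^ E)) * G) := by
      intro c
      unfold low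
      rw [coeff_monomial_mul']
      by_cases hc : c ≤ e
      · rw [if_pos hc, if_pos (fun i => by
          have h7 := hc i
          simp only
          omega)]
        have h2 : tr (fun i => -((c i : ℕ) : ℤ)) e = e - c := by
          ext i
          show ((e i : ℤ) + -((c i : ℕ) : ℤ)).toNat = _
          rw [Finsupp.tsub_apply]
          omega
        rw [h2, W425.ND.smul_apply, map_mul, eval_C]
        have hl2 : eval (ev s (e - c) : Option (Fin N) → ℂ) (Bop (prodb b K)) *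
            brk f p m s (e - c) = coeff (e - c) G := by
          rw [hB, hG, coeff_C_mul]
          rfl
        rw [mul_assoc, hl2]
        simp
      · rw [if_neg hc, if_neg, neg_zero]
        intro h2
        apply hc
        intro i
        have h7 := h2 i
        simp only at h7
        omega
    simp only [hlow, hl]
    rw [← hsum (fun c => -coeff e (monomial c (coeff c (a ^ E)) * G)), Finset.sum_neg_distrib]
    have h0s : (0 : Fin N →₀ ℕ) ∈ (a ^ E).support := by
      rw [mem_support_iff, ← constantCoeff_eq, map_pow, ha0, one_pow]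
      exact one_ne_zero
    have h3 : coeff e (a ^ E * G) = ∑ c ∈ (a ^ E).support,
        coeff e (monomial c (coeff c (a ^ E)) * G) := by
      conv_lhs => rw [← support_sum_monomial_coeff (a ^ E)]
      rw [Finset.sum_mul, coeff_sum]
    rw [h3, ← Finset.add_sum_erase _ _ h0s]
    have h4 : coeff 0 (a ^ E) = 1 := by
      rw [← constantCoeff_eq, map_pow, ha0, one_pow]
    rw [h4]
    have h5 : (monomial (0 : Fin N →₀ ℕ) (1 : ℂ)) = 1 := rfl
    rw [h5, one_mul]
    ring

end Pool.Agent.W402.ND
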